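import Pool.Agent.X214.LG.Group

/-!
# Products of matrices in arbitrary coordinates and in redundant encodings

Definitions: `Free`, `IsNet`, `IsChart`, `Multiplies` are in `Pool.Agent.X214.LG.Defs`; `MulEnc` in
`Pool.Agent.X214.LG.Lower`; `IsGroup`, `IsCoord`, `GroupNet` in `Pool.Agent.X214.LG.Group`;
`omega` (with `rk`, `HasRank`) in `Pool.Agent.H515R2.MMR.Rank`.
-/

set_option autoImplicit false

namespace Pool.Agent.Results.MP_e72dc0_lc.AnyCoordinates

open Filter Pool.Agent.X214.LG Pool.Agent.H515R2.MMR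

/-- A gate applies an arbitrary map `φ : 𝕜 ^ a → 𝕜 ^ b`, twice continuously differentiable at the
values that occur, to `a` available functions: linear combinations of results of earlier gates
and of arbitrary twice continuously differentiable functions of the first factor alone and of the
second factor alone. `MulEnc 𝕜 n m₁ m₂ m a b L`: near some point, invertible `n × n` matrices `A`
and `B` are given by `m₁` and `m₂` coordinates (the parametrizations are immersions; for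
`m₁ = n ^ 2` these are arbitrary coordinates of an arbitrary matrix), and `L` gates compute from the
coordinates `m` numbers `z` with `A B = T z`, for some twice continuously differentiable `T`, which
is free. `GroupNet P a b L`: `L` gates multiply, near the identity, the elements of the group of
matrices parametrized by `P`, for some choice of coordinates for the factors and for the product.
`omega` is the exponent of matrix multiplication.

(1) If `n ^ 2 + (16 q + 4) n < 4 (m₁ + m₂ - m)`, then `q ^ ω ≤ 2 L a min (a, b)`.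
(2) So `c n ^ ω ≤ L a min (a, b)` if `m₁ + m₂ - m ≥ (1 / 4 + ε) n ^ 2` and `n ≥ n₀`, with
`c > 0` and `n₀` depending only on `ε`.
(3) The number of gates for computing, in the best coordinates for `A` and `B`, some encoding of
`A B` by `m (n)` numbers, `n ^ 2 ≤ m (n) ≤ (7 / 4 - ε) n ^ 2`, has exponent exactly `ω`.
(4) For every sequence of groups of real `n × n` matrices of dimensions at least
`(1 / 4 + ε) n ^ 2`, the number of gates for the multiplication of the group in the best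
coordinates has exponent exactly `ω`.
(5) Both densities are sharp: for `m = 2 n ^ 2 - ⌊n ^ 2 / 4⌋` numbers, and for a group of dimension
`⌊n ^ 2 / 4⌋`, no gate at all is needed. -/
theorem result :
    (∀ (𝕜 : Type) [RCLike 𝕜] (n m₁ m₂ m a b L q : ℕ), MulEnc 𝕜 n m₁ m₂ m a b L → 1 ≤ q →
      n ^ 2 + (16 * q + 4) * n + 4 * m < 4 * (m₁ + m₂) →
      (q : ℝ) ^ omega ≤ 2 * (L * (a * min a b) : ℕ)) ∧
    (∀ ε : ℝ, 0 < ε → ∃ c : ℝ, 0 < c ∧ ∃ n₀ : ℕ,
      ∀ (𝕜 : Type) [RCLike 𝕜] (n m₁ m₂ m a b L : ℕ), n₀ ≤ n → MulEnc 𝕜 n m₁ m₂ m a b L →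
        (1 / 4 + ε) * (n : ℝ) ^ 2 + m ≤ m₁ + m₂ →
        c * (n : ℝ) ^ omega ≤ ((L * (a * min a b) : ℕ) : ℝ)) ∧
    (∀ (a b : ℕ) (ε : ℝ) (m : ℕ → ℕ), 2 ≤ a → 1 ≤ b → 0 < ε → (∀ n, n ^ 2 ≤ m n) →
      (∀ᶠ n : ℕ in atTop, (m n : ℝ) ≤ (7 / 4 - ε) * (n : ℝ) ^ 2) →
      sInf {τ : ℝ | ∃ C : ℝ, ∀ n : ℕ, ∃ L : ℕ, MulEnc ℝ n (n ^ 2) (n ^ 2) (m n) a b L ∧
        (L : ℝ) ≤ C * (n : ℝ) ^ τ} = omega) ∧
    (∀ (a b : ℕ) (ε : ℝ) (m : ℕ → ℕ)
      (P : (n : ℕ) → (Fin (m n) → ℝ) → Matrix (Fin n) (Fin n) ℝ), 2 ≤ a → 1 ≤ b → 0 < ε →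
      (∀ n, IsGroup (P n)) → (∀ᶠ n : ℕ in atTop, (1 / 4 + ε) * (n : ℝ) ^ 2 ≤ m n) →
      sInf {τ : ℝ | ∃ C : ℝ, ∀ n : ℕ, ∃ L : ℕ, GroupNet (P n) a b L ∧
        (L : ℝ) ≤ C * (n : ℝ) ^ τ} = omega) ∧
    (∀ n a b : ℕ, (∀ (𝕜 : Type) [RCLike 𝕜],
        MulEnc 𝕜 n (n ^ 2) (n ^ 2) (2 * n ^ 2 - n ^ 2 / 4) a b 0) ∧
      ∃ P : (Fin (n ^ 2 / 4) → ℝ) → Matrix (Fin n) (Fin n) ℝ, IsGroup P ∧ GroupNet P a b 0) := by
  refine ⟨?_, ?_, ?_, ?_, ?_⟩
  · intro 𝕜 _ n m₁ m₂ m a b L q h hq hd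
    obtain ⟨σ⟩ := exists_hom 𝕜
    exact lower σ h hq hd
  · exact fun ε hε => asymp hε
  · exact fun a b ε m ha hb hε hm hm' => exponent ha hb hε m hm hm'
  · exact fun a b ε m P ha hb hε hP hm => group_exponent ha hb hε m P hP hm
  · exact fun n a b => ⟨fun 𝕜 _ => sharp_full 𝕜 n a b, abelian_group n a b⟩

end Pool.Agent.Results.MP_e72dc0_lc.AnyCoordinates
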