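import Pool.Agent.X242.SA3
import Pool.Agent.W966.Mm.Asym

set_option autoImplicit false

/-!
# Networks of smooth gates with bounded derivatives which approximate the product of two matrices

Definitions: `Taylor` is in `Pool.Agent.X242.SA1`, `Gate`, `Net`, `Gate.op`, `Net.res`, `Net.out`,
`Gate.Bounded`, `Net.Bounded` in `Pool.Agent.X242.SA2`, `prd` in `Pool.Agent.X242.SA3`, `HasRank`,
`rk`, `omega` in `Pool.Agent.H515R2.MMR.Rank`.
-/

namespace Pool.Agent.Results.MP_e72dc0_lc.BoundedGateApproximation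

open Pool.Agent.H515R2.MMR Pool.Agent.X242.SA

/-- The first `L` gates of the network approximate the product of two matrices up to `ε` in every
entry, for all pairs of matrices within the distance `ε ^ (1 / 3)` of `(A, B)`. -/
def Approximates {𝕜 : Type} [NormedField 𝕜] {n a : ℕ} (N : Net 𝕜 n a) (L : ℕ) (ε : ℝ)
    (A B : Fin n × Fin n → 𝕜) : Prop :=
  ∀ A' B', ‖A' - A‖ ≤ ε ^ (1 / 3 : ℝ) → ‖B' - B‖ ≤ ε ^ (1 / 3 : ℝ) →
    ∀ c, ‖N.out L A' B' c - prd A' B' c‖ ≤ ε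

/-- For certain arbitrarily small `ε` there are networks with `L` gates, bounded by `ε ^ (- o(1))` at
some input, which approximate the product of two `n × n` matrices near this input up to `ε`. -/
def Solvable (𝕜 : Type) [NormedField 𝕜] (n a L : ℕ) : Prop :=
  ∀ c : ℝ, 0 < c → ∃ (K ε : ℝ) (N : Net 𝕜 n a) (A B : Fin n × Fin n → 𝕜), 1 ≤ K ∧ 0 < ε ∧ ε < c ∧
    K ≤ ε ^ (-c) ∧ N.Bounded K L A B ∧ Approximates N L ε A B

theorem solvable_lower {𝕜 : Type} [RCLike 𝕜] {n a L : ℕ} (hn : 1 ≤ n) (ha : 1 ≤ a)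
    (h : Solvable 𝕜 n a L) : (n : ℝ) ^ omega ≤ ((a * L : ℕ) : ℝ) := by
  by_contra hcon
  push Not at hcon
  obtain ⟨c, C, hc, hC, hlow⟩ := lower 𝕜 hn ha hcon
  obtain ⟨K, ε, N, A, B, hK, hε, hεc, hKε, hN, happ⟩ :=
    h (min (1 / (2 * C)) (min 1 (c ^ 2))) (by positivity)
  set c' := min (1 / (2 * C)) (min 1 (c ^ 2)) with hc'
  have h1 : c' ≤ 1 / (2 * C) := min_le_left _ _
  have h2 : c' ≤ 1 := (min_le_right _ _).trans (min_le_left _ _)
  have h3 : c' ≤ c ^ 2 := (min_le_right _ _).trans (min_le_right _ _)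
  have hε1 : ε ≤ 1 := by linarith
  have h4 := hlow K ε N A B hK hε hN happ
  have hK0 : 0 < K := by linarith
  have h5 : ε ^ (c' * C) ≤ K ^ (-C) := by
    have h6 : (ε ^ (-c')) ^ (-C) ≤ K ^ (-C) :=
      Real.rpow_le_rpow_of_nonpos hK0 hKε (by linarith)
    rw [← Real.rpow_mul hε.le] at h6
    have h7 : -c' * -C = c' * C := by ring
    rwa [h7] at h6
  have h8 : c' * C ≤ 1 / 2 := by
    calc c' * C ≤ 1 / (2 * C) * C := mul_le_mul_of_nonneg_right h1 hC.le
      _ = 1 / 2 := by field_simp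
  have h9 : ε ^ (1 / 2 : ℝ) ≤ ε ^ (c' * C) := Real.rpow_le_rpow_of_exponent_ge hε hε1 h8
  have h10 : c * ε ^ (1 / 2 : ℝ) ≤ ε := (mul_le_mul_of_nonneg_left (h9.trans h5) hc.le).trans h4
  have h11 : ε = ε ^ (1 / 2 : ℝ) * ε ^ (1 / 2 : ℝ) := by
    rw [← Real.rpow_add hε]
    norm_num
  have h12 : 0 < ε ^ (1 / 2 : ℝ) := Real.rpow_pos_of_pos hε _
  have h13 : c ≤ ε ^ (1 / 2 : ℝ) := by
    rw [h11] at h10
    have h14 : ε ^ (1 / 2 : ℝ) * ε ^ (1 / 2 : ℝ) = ε := h11.symm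
    rw [h14] at h10
    have h15 : c * ε ^ (1 / 2 : ℝ) ≤ ε ^ (1 / 2 : ℝ) * ε ^ (1 / 2 : ℝ) := by rw [h14]; exact h10
    exact le_of_mul_le_mul_right h15 h12
  have h16 : ε ^ (1 / 2 : ℝ) < c := by
    calc ε ^ (1 / 2 : ℝ) < (c ^ 2) ^ (1 / 2 : ℝ) :=
          Real.rpow_lt_rpow hε.le (hεc.trans_le h3) (by norm_num)
      _ = c := by
          rw [← Real.rpow_natCast, ← Real.rpow_mul hc.le]
          norm_num
  linarith

theorem exact_net {n a : ℕ} (ha : 1 ≤ a) : ∃ (N : Net ℝ n a) (K : ℝ), 1 ≤ K ∧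
    ∀ A B : Fin n × Fin n → ℝ, (‖A‖ ≤ 1 → ‖B‖ ≤ 1 → N.Bounded K (8 * rk n) A B) ∧
      ∀ c, N.out (8 * rk n) A B c = prd A B c := by
  have hmem : rk n ∈ {r : ℕ | HasRank n r} := Nat.sInf_mem ⟨n ^ 3, hasRank_cube n⟩
  obtain ⟨α, β, γ, h⟩ := real_rank hmem
  obtain ⟨K, hK1, hK⟩ := sqNet_bounded a ha α β γ
  have e : rk n * 4 + rk n * 4 = 8 * rk n := by ring
  rw [e] at hK
  refine ⟨sqNet a ha α β γ, K, hK1, fun A B => ⟨hK A B, fun c => ?_⟩⟩
  have h1 := sqNet_out a ha α β γ A B c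
  rw [e] at h1
  rw [h1]
  exact prd_of_rank α β γ h A B c

theorem solvable_upper {n a : ℕ} (ha : 1 ≤ a) : Solvable ℝ n a (8 * rk n) := by
  intro c hc
  obtain ⟨N, K, hK1, hK⟩ := exact_net (n := n) ha
  have hK0 : 0 < K := by linarith
  -- choose `ε`
  refine ⟨K, min (c / 2) (min 1 (K ^ (-(1 / c)))), N, 0, 0, hK1, by positivity, ?_, ?_,
    (hK 0 0).1 (by rw [norm_zero]; exact zero_le_one) (by rw [norm_zero]; exact zero_le_one), ?_⟩
  · exact (min_le_left _ _).trans_lt (by linarith)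
  · set ε := min (c / 2) (min 1 (K ^ (-(1 / c)))) with hε
    have hε0 : 0 < ε := by positivity
    have h1 : ε ≤ K ^ (-(1 / c)) := (min_le_right _ _).trans (min_le_right _ _)
    have h2 : (K ^ (-(1 / c))) ^ (-c) ≤ ε ^ (-c) :=
      Real.rpow_le_rpow_of_nonpos hε0 h1 (by linarith)
    rw [← Real.rpow_mul hK0.le] at h2
    have h3 : -(1 / c) * -c = 1 := by field_simp
    rwa [h3, Real.rpow_one] at h2
  · intro A' B' _ _ p
    rw [(hK A' B').2 p, sub_self, norm_zero]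
    positivity

/-- Functions with three bounded derivatives. -/
theorem taylor_of_deriv {K : ℝ} {φ φ₁ φ₂ φ₃ : ℝ → ℝ} (h₁ : ∀ x, HasDerivAt φ (φ₁ x) x)
    (h₂ : ∀ x, HasDerivAt φ₁ (φ₂ x) x) (h₃ : ∀ x, HasDerivAt φ₂ (φ₃ x) x) (b₁ : ∀ x, |φ₁ x| ≤ K)
    (b₂ : ∀ x, |φ₂ x| ≤ K) (b₃ : ∀ x, |φ₃ x| ≤ K) (u : Fin 1 → ℝ) :
    ∃ (G : Fin 1 → ℝ) (H : Fin 1 → Fin 1 → ℝ), Taylor K (fun u => φ (u 0)) u G H := by
  set v := u 0 with hv
  have hK : 0 ≤ K := (abs_nonneg _).trans (b₁ 0)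
  have mv : ∀ (f f' : ℝ → ℝ) (C : ℝ) (t : ℝ), (∀ x, HasDerivAt f (f' x) x) → f 0 = 0 →
      (∀ x, |x| ≤ |t| → |f' x| ≤ C) → |f t| ≤ C * |t| := by
    intro f f' C t hf h0 hb
    have h := Convex.norm_image_sub_le_of_norm_hasDerivWithin_le (f := f) (f' := f') (C := C)
      (s := Metric.closedBall (0 : ℝ) |t|) (x := 0) (y := t)
      (fun x _ => (hf x).hasDerivWithinAt) (fun x hx => hb x (by simpa using hx))
      (convex_closedBall _ _) (by simp) (by simp)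
    rw [h0, sub_zero, sub_zero] at h
    exact h
  have g2 : ∀ t, |φ₂ (v + t) - φ₂ v| ≤ K * |t| := fun t =>
    mv (fun t => φ₂ (v + t) - φ₂ v) (fun t => φ₃ (v + t)) K t
      (fun x => by simpa using ((h₃ (v + x)).comp_const_add v x).sub_const (φ₂ v)) (by simp)
      fun x _ => b₃ _
  have g1 : ∀ t, |φ₁ (v + t) - φ₁ v - φ₂ v * t| ≤ K * |t| * |t| := fun t =>
    mv (fun t => φ₁ (v + t) - φ₁ v - φ₂ v * t) (fun t => φ₂ (v + t) - φ₂ v) _ t
      (fun x => by
        have h := (((h₂ (v + x)).comp_const_add v x).sub_const (φ₁ v)).sub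
          ((hasDerivAt_id x).const_mul (φ₂ v))
        exact h.congr_deriv (by ring)) (by simp)
      fun x hx => (g2 x).trans (mul_le_mul_of_nonneg_left hx hK)
  have g0 : ∀ t, |φ (v + t) - φ v - φ₁ v * t - φ₂ v / 2 * (t * t)| ≤ K * |t| * |t| * |t| := fun t =>
    mv (fun t => φ (v + t) - φ v - φ₁ v * t - φ₂ v / 2 * (t * t))
      (fun t => φ₁ (v + t) - φ₁ v - φ₂ v * t) _ t
      (fun x => by
        have h := ((((h₁ (v + x)).comp_const_add v x).sub_const (φ v)).sub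
          ((hasDerivAt_id x).const_mul (φ₁ v))).sub
          (((hasDerivAt_id x).mul (hasDerivAt_id x)).const_mul (φ₂ v / 2))
        exact h.congr_deriv (by simp only [id]; ring)) (by simp)
      fun x hx => (g1 x).trans (mul_le_mul (mul_le_mul_of_nonneg_left hx hK) hx (abs_nonneg _)
        (by positivity))
  refine ⟨fun _ => φ₁ v, fun _ _ => φ₂ v / 2, fun _ => b₁ v, fun _ _ => ?_, fun d _ => ?_⟩
  · rw [Real.norm_eq_abs, abs_div, abs_of_pos (by norm_num : (0 : ℝ) < 2)]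
    have := b₂ v
    linarith
  · simp only [Fin.sum_univ_one, Pi.add_apply]
    have h1 : |d 0| ≤ ‖d‖ := norm_le_pi_norm d 0
    have h2 := g0 (d 0)
    have h3 : φ (v + d 0) - (φ v + φ₁ v * d 0 + φ₂ v / 2 * (d 0 * d 0)) =
        φ (v + d 0) - φ v - φ₁ v * d 0 - φ₂ v / 2 * (d 0 * d 0) := by ring
    rw [Real.norm_eq_abs, h3]
    refine h2.trans ?_
    calc K * |d 0| * |d 0| * |d 0| = K * |d 0| ^ 3 := by ring
      _ ≤ K * ‖d‖ ^ 3 := mul_le_mul_of_nonneg_left (pow_le_pow_left₀ (abs_nonneg _) h1 3) hK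

/-- Let `𝕜` be `ℝ` or `ℂ`. A network `N : Net 𝕜 n a` gets two `n × n` matrices. Each gate applies an
arbitrary function `φ : 𝕜 ^ a → 𝕜`, which may be different for every gate, to sums of arbitrary
functions of the first matrix, arbitrary functions of the second matrix and linear combinations of
the results of the earlier gates; the output is an `n × n` matrix of such sums. Only the gates are
counted. `N.Bounded K L A B`: at the input `(A, B)` the first `L` gates are bounded by `K`, that is,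
the coefficients of the linear combinations and the Lipschitz constants of the free functions are at
most `K`, and at the values that occur each `φ` has a gradient and a second order part with entries
at most `K` and a third order remainder with constant `K` (for instance functions of one variable
with three derivatives bounded by `K`, see (6); but nothing is required away from the values that
occur at `(A, B)`). `Approximates N L ε A B`: for all inputs
within the distance `ε ^ (1 / 3)` of `(A, B)` the output is the product of the two matrices up to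
`ε` in every entry. `ω` is the exponent of matrix multiplication, `rk n` the rank of the tensor of
`n × n` matrix multiplication over `ℂ`.

(1) Let `a L < n ^ ω`. There are `c, C > 0` such that if a network with `L` gates is bounded by `K` at
`(A, B)` and approximates the product near `(A, B)` up to `ε`, then `ε ≥ c K ^ (- C)`.
(2) So if this is possible with `L` gates bounded by `ε ^ (- o(1))`, for certain arbitrarily small
`ε`, then `n ^ ω ≤ a L`.
(3) If this is so for infinitely many `n` (with any such `𝕜`, `a`) and `a L ≤ D n ^ τ`, then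
`ω ≤ τ`.
(4) Conversely, for every `a ≥ 1` there is a real network with `8 rk n` gates (squares) which
computes the product exactly and is bounded by some `K` at all pairs of matrices with entries in
`[-1, 1]`.
(5) So for every `a ≥ 1` the number of gates of bounded (or of subpolynomially bounded) networks that
are needed to approximate the product of two real matrices to an arbitrary precision near some
input has exponent exactly `ω`.
(6) Real functions `φ` of one variable with three derivatives bounded by `K` (activation functions of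
neural networks) satisfy the condition on `φ` at all points. -/
theorem result :
    (∀ (𝕜 : Type) [RCLike 𝕜] (n a L : ℕ), 1 ≤ n → 1 ≤ a → ((a * L : ℕ) : ℝ) < (n : ℝ) ^ omega →
      ∃ c C : ℝ, 0 < c ∧ 0 < C ∧
        ∀ (K ε : ℝ) (N : Net 𝕜 n a) (A B : Fin n × Fin n → 𝕜), 1 ≤ K → 0 < ε →
          N.Bounded K L A B → Approximates N L ε A B → c * K ^ (-C) ≤ ε) ∧
    (∀ (𝕜 : Type) [RCLike 𝕜] (n a L : ℕ), 1 ≤ n → 1 ≤ a → Solvable 𝕜 n a L →
      (n : ℝ) ^ omega ≤ a * L) ∧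
    (∀ τ D : ℝ, (∀ N₀ : ℕ, ∃ n : ℕ, N₀ ≤ n ∧ ∃ (𝕜 : Type) (_ : RCLike 𝕜) (a L : ℕ), 1 ≤ a ∧
      Solvable 𝕜 n a L ∧ (a * L : ℝ) ≤ D * (n : ℝ) ^ τ) → omega ≤ τ) ∧
    (∀ n a : ℕ, 1 ≤ a → ∃ (N : Net ℝ n a) (K : ℝ), 1 ≤ K ∧
      ∀ A B : Fin n × Fin n → ℝ, (‖A‖ ≤ 1 → ‖B‖ ≤ 1 → N.Bounded K (8 * rk n) A B) ∧
        ∀ c, N.out (8 * rk n) A B c = prd A B c) ∧
    (∀ a : ℕ, 1 ≤ a → sInf {τ : ℝ | ∃ D : ℝ, ∀ n : ℕ, ∃ L : ℕ, Solvable ℝ n a L ∧
      (L : ℝ) ≤ D * (n : ℝ) ^ τ} = omega) ∧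
    (∀ (K : ℝ) (φ φ₁ φ₂ φ₃ : ℝ → ℝ), (∀ x, HasDerivAt φ (φ₁ x) x) →
      (∀ x, HasDerivAt φ₁ (φ₂ x) x) → (∀ x, HasDerivAt φ₂ (φ₃ x) x) → (∀ x, |φ₁ x| ≤ K) →
      (∀ x, |φ₂ x| ≤ K) → (∀ x, |φ₃ x| ≤ K) → ∀ u : Fin 1 → ℝ,
      ∃ (G : Fin 1 → ℝ) (H : Fin 1 → Fin 1 → ℝ), Taylor K (fun u => φ (u 0)) u G H) := by
  have hthree : ∀ τ D : ℝ, (∀ N₀ : ℕ, ∃ n : ℕ, N₀ ≤ n ∧ ∃ (𝕜 : Type) (_ : RCLike 𝕜) (a L : ℕ),
      1 ≤ a ∧ Solvable 𝕜 n a L ∧ (a * L : ℝ) ≤ D * (n : ℝ) ^ τ) → omega ≤ τ := by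
    intro τ D H
    refine Pool.Agent.W966.Mm.omega_le_of_inf (c := 1) (D := D) one_pos fun N₀ => ?_
    obtain ⟨n, hn, 𝕜, _, a, L, ha, h, hL⟩ := H (max N₀ 1)
    refine ⟨n, (le_max_left _ _).trans hn, a * L, ?_, hL⟩
    have h1 := solvable_lower ((le_max_right N₀ 1).trans hn) ha h
    rw [one_mul]
    push_cast at h1
    have h2 : (0 : ℝ) ≤ a * L := by positivity
    linarith
  refine ⟨fun 𝕜 _ n a L hn ha hL => lower 𝕜 hn ha hL, fun 𝕜 _ n a L hn ha h => ?_, hthree,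
    fun n a ha => exact_net ha, fun a ha => ?_,
    fun K φ φ₁ φ₂ φ₃ h₁ h₂ h₃ b₁ b₂ b₃ u => taylor_of_deriv h₁ h₂ h₃ b₁ b₂ b₃ u⟩
  · have h1 := solvable_lower hn ha h
    push_cast at h1
    exact h1
  · have hlow : ∀ τ ∈ {τ : ℝ | ∃ D : ℝ, ∀ n : ℕ, ∃ L : ℕ, Solvable ℝ n a L ∧
        (L : ℝ) ≤ D * (n : ℝ) ^ τ}, omega ≤ τ := by
      rintro τ ⟨D, hD⟩
      refine hthree τ (a * D) fun N₀ => ?_
      obtain ⟨L, h1, h2⟩ := hD N₀
      refine ⟨N₀, le_rfl, ℝ, inferInstance, a, L, ha, h1, ?_⟩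
      calc (a * L : ℝ) ≤ a * (D * (N₀ : ℝ) ^ τ) := mul_le_mul_of_nonneg_left h2 (Nat.cast_nonneg a)
        _ = _ := by ring
    have hsub : {τ : ℝ | ∃ C : ℝ, ∀ n : ℕ, (rk n : ℝ) ≤ C * (n : ℝ) ^ τ} ⊆
        {τ : ℝ | ∃ D : ℝ, ∀ n : ℕ, ∃ L : ℕ, Solvable ℝ n a L ∧ (L : ℝ) ≤ D * (n : ℝ) ^ τ} := by
      rintro τ ⟨C, hC⟩
      refine ⟨8 * C, fun n => ⟨8 * rk n, solvable_upper ha, ?_⟩⟩
      push_cast
      have := hC n
      linarith
    have hne : {τ : ℝ | ∃ C : ℝ, ∀ n : ℕ, (rk n : ℝ) ≤ C * (n : ℝ) ^ τ}.Nonempty := by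
      refine ⟨3, 1, fun n => ?_⟩
      have h1 : rk n ≤ n ^ 3 := Nat.sInf_le (hasRank_cube n)
      rw [one_mul]
      have h2 : (n : ℝ) ^ (3 : ℝ) = ((n ^ 3 : ℕ) : ℝ) := by
        push_cast
        rw [← Real.rpow_natCast]
        norm_num
      rw [h2]
      exact_mod_cast h1
    apply le_antisymm
    · exact csInf_le_csInf ⟨omega, hlow⟩ hne hsub
    · exact le_csInf (hne.mono hsub) hlow

end Pool.Agent.Results.MP_e72dc0_lc.BoundedGateApproximation
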