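import Pool.Agent.X214.OM.Expo

/-!
# Nonlinear functions of one matrix: smooth gates do not help

Definitions: `Avail`, `IsNet`, `Computes`, `Fam`, `lineDer`, `sandwich`, `cubeTrace`, `SquareLike`,
`CubeLike`, `invF`, `detF`, `polyF`, `trF`, `derAt`, `gateExponent` are in `Pool.Agent.X214.OM.Defs`;
`omega` (with `rk`, `HasRank`) in `Pool.Agent.H515R2.MMR.Rank`.
-/

set_option autoImplicit false

namespace Pool.Agent.Results.MP_e72dc0_lc.OneMatrix

open Filter Pool.Agent.X214.OM Pool.Agent.H515R2.MMR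

/-- A gate applies an arbitrary map `φ : 𝕜 ^ a → 𝕜 ^ b` to `a` linear combinations of `1`, of the
`m` input numbers `x` and of the results of earlier gates; `φ` is `r` times continuously
differentiable at the values that occur. `Computes r a b L F`: `L` such gates compute the
functions `F j` near `0`. Let `M x` be an injective linear function of `x` with values in the
`n × n` matrices. `SquareLike 𝕜 n m a b L`: `L` gates (`r = 2`) compute for one such `M` a matrix
whose second order part in `x` is `P (M x) ^ 2 Q`, `P`, `Q` invertible. `CubeLike 𝕜 n m a b L`: `L`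
gates (`r = 3`) compute one function whose third order part is `γ tr (M x) ^ 3`, `γ ≠ 0`, when
`tr (M x) = 0`. `omega` is the exponent of matrix multiplication.

(1) In the first case `q ^ ω ≤ L a min (a, b)` if `n ^ 2 + (16 q + 4) n < 4 m`; in the second case
`q ^ ω ≤ 3 L a ^ 2` if `n ^ 2 + (3 q + 2) n + 2 < 2 m`.
(2) So `c n ^ ω ≤ L a min (a, b)` if `m ≥ (1 / 4 + ε) n ^ 2`, respectively `c n ^ ω ≤ L a ^ 2` if
`m ≥ (1 / 2 + ε) n ^ 2`, with `c > 0` depending only on `ε`, for all large `n`.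
(3) This applies to inversion and to the determinant, near any invertible matrix, on any affine
space of matrices, and to `p (A)` and `tr p (A)` near the scalar matrix `c`, for polynomials `p` with
`p'' (c) ≠ 0` and `p''' (c) ≠ 0`, respectively.
(4) The exponent of the number of gates for the easiest task of the first kind is exactly `ω` for
all dimensions `m (n)` between `(1 / 4 + ε) n ^ 2` and `n ^ 2`, and the same holds for the second
kind between `(1 / 2 + ε) n ^ 2` and `n ^ 2`.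
(5) Both densities are sharp: no gate is needed for a space of dimension `⌊n ^ 2 / 4⌋` in the first
case and for a space of dimension at least `(n ^ 2 - n) / 2` in the second case. -/
theorem result :
    (∀ (𝕜 : Type) [RCLike 𝕜] (n m a b L q : ℕ), 1 ≤ q →
      (SquareLike 𝕜 n m a b L → n ^ 2 + (16 * q + 4) * n < 4 * m →
        (q : ℝ) ^ omega ≤ (L * (a * min a b) : ℕ)) ∧
      (CubeLike 𝕜 n m a b L → n ^ 2 + (3 * q + 2) * n + 2 < 2 * m →
        (q : ℝ) ^ omega ≤ (3 * (L * (a * a)) : ℕ))) ∧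
    (∀ ε : ℝ, 0 < ε → ∃ c : ℝ, 0 < c ∧ ∃ n₀ : ℕ,
      ∀ (𝕜 : Type) [RCLike 𝕜] (n m a b L : ℕ), n₀ ≤ n →
        (SquareLike 𝕜 n m a b L → (1 / 4 + ε) * (n : ℝ) ^ 2 ≤ m →
          c * (n : ℝ) ^ omega ≤ (L * (a * min a b) : ℕ)) ∧
        (CubeLike 𝕜 n m a b L → (1 / 2 + ε) * (n : ℝ) ^ 2 ≤ m →
          c * (n : ℝ) ^ omega ≤ (L * (a * a) : ℕ))) ∧
    (∀ (𝕜 : Type) [RCLike 𝕜] (n m a b L : ℕ) (M : Fam 𝕜 n m),
      Function.Injective M.mat →
      (∀ A₀ : Matrix (Fin n) (Fin n) 𝕜, IsUnit A₀ →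
        (Computes 2 a b L (invF A₀ M) → SquareLike 𝕜 n m a b L) ∧
        (Computes 3 a b L (detF A₀ M) → CubeLike 𝕜 n m a b L)) ∧
      ∀ (p : Polynomial 𝕜) (c : 𝕜),
        (derAt 2 p c ≠ 0 → Computes 2 a b L (polyF p c M) → SquareLike 𝕜 n m a b L) ∧
        (derAt 3 p c ≠ 0 → Computes 3 a b L (trF p c M) → CubeLike 𝕜 n m a b L)) ∧
    (∀ (a b : ℕ) (ε : ℝ) (m : ℕ → ℕ), 2 ≤ a → 1 ≤ b → 0 < ε → (∀ n, m n ≤ n ^ 2) →
      ((∀ᶠ n : ℕ in atTop, (1 / 4 + ε) * (n : ℝ) ^ 2 ≤ m n) →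
        gateExponent (fun n L => SquareLike ℝ n (m n) a b L) = omega) ∧
      ((∀ᶠ n : ℕ in atTop, (1 / 2 + ε) * (n : ℝ) ^ 2 ≤ m n) →
        gateExponent (fun n L => CubeLike ℝ n (m n) a b L) = omega)) ∧
    (∀ (𝕜 : Type) [RCLike 𝕜] (n a b : ℕ), SquareLike 𝕜 n (n ^ 2 / 4) a b 0 ∧
      ∃ m : ℕ, n ^ 2 ≤ 2 * m + n ∧ CubeLike 𝕜 n m a b 0) := by
  refine ⟨?_, ?_, ?_, ?_, ?_⟩
  · intro 𝕜 _ n m a b L q hq
    exact ⟨fun h hd => square_bound h hq hd, fun h hd => cube_bound h hq hd⟩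
  · intro ε hε
    obtain ⟨c, hc, n₀, h⟩ := square_asymp hε
    obtain ⟨c', hc', n₀', h'⟩ := cube_asymp hε
    refine ⟨min c c', lt_min hc hc', max n₀ n₀', fun 𝕜 _ n m a b L hn => ⟨fun H hd => ?_,
      fun H hd => ?_⟩⟩
    · refine le_trans ?_ (h 𝕜 n m a b L ((le_max_left _ _).trans hn) H hd)
      gcongr
      exact min_le_left _ _
    · refine le_trans ?_ (h' 𝕜 n m a b L ((le_max_right _ _).trans hn) H hd)
      gcongr
      exact min_le_right _ _
  · intro 𝕜 _ n m a b L M hM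
    exact ⟨fun A₀ hA => ⟨fun h => inverse_squareLike hA hM h, fun h => det_cubeLike hA hM h⟩,
      fun p c => ⟨fun hp h => poly_squareLike hp hM h, fun hp h => poly_cubeLike hp hM h⟩⟩
  · exact fun a b ε m ha hb hε hm => ⟨fun h => square_exponent ha hb hε m hm h,
      fun h => cube_exponent ha hb hε m hm h⟩
  · intro 𝕜 _ n a b
    exact ⟨sharp_square n a b, sharp_cube n a b⟩

end Pool.Agent.Results.MP_e72dc0_lc.OneMatrix
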