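import Pool.Agent.Y538.Fun.Final

/-!
# Twice differentiable gates do not help: the number of gates for matrix products is `n ^ ω`

Definitions: `Pairs`, `Aff`, `IsNet`, `Solves` are in `Pool.Agent.Y538.Net.Defs`; `mm`, `Free`,
`IsNetF`, `SolvesF` in `Pool.Agent.Y538.Fun.Defs`; `HasRank`, `rk`, `omega` in
`Pool.Agent.H515R2.MMR.Rank`.
-/

set_option autoImplicit false

namespace Pool.Agent.Results.MP_e72dc0_lc.SmoothGates

open Filter Pool.Agent.Y538.Net Pool.Agent.Y538.Fun Pool.Agent.H515R2.MMR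

/-- The real and the complex numbers embed into the complex numbers. -/
theorem exists_hom (𝕜 : Type) [RCLike 𝕜] : Nonempty (𝕜 →+* ℂ) := by
  rcases RCLike.I_eq_zero_or_im_I_eq_one (K := 𝕜) with h | h
  · exact ⟨Complex.ofRealHom.comp (RCLike.realRingEquiv h).toRingHom⟩
  · exact ⟨(RCLike.complexRingEquiv h).toRingHom⟩

/-- A gate applies an arbitrary map `φ : 𝕜 ^ a → 𝕜 ^ b`, twice continuously differentiable at the
values that occur, to `a` functions which are available: linear combinations of the results of the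
earlier gates and of arbitrary twice continuously differentiable functions of the first matrix `A`
alone and of the second matrix `B` alone. `SolvesF 𝕜 n a b L d Φ`: there are countably many such
networks, with `L` gates each, such that the set of the pairs `(A, B)` of `n × n` matrices, at which
`Φ : 𝕜 ^ (n × n) → 𝕜 ^ d` is twice continuously differentiable with surjective derivative at `A B`
and at least one of the networks gives `Φ (A B)`, is not meagre. `Solves 𝕜 n a b L` is the same for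
`A B` itself, with linear combinations of affine functions of the input and of results of earlier
gates as the available functions. `omega` is the exponent of the rank of matrix multiplication.

(1) Let `𝕜 = ℝ` or `ℂ`. Then `(n (d - n)) ^ (ω / 3) ≤ 2 L (4 a min (a, b)) ^ (ω / 3)` for all `d`
and `Φ`; so at least `c n ^ ω` gates are needed for `d ≥ ε n ^ 2` numbers, `c = c (ε, a, b) > 0`.
(2) If for infinitely many `n` some `d ≥ ε n ^ δ` independent functions of `A B`, `δ > 1`, can be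
computed with at most `n ^ τ` gates, then `τ ≥ (1 + δ) ω / 3`.
(3) For gates with `a ≥ 2` inputs and `b ≥ 1` outputs the number of gates for `d (n) ≥ ε n ^ 2`
linearly independent linear functions of `A B` has exponent exactly `ω`, everything that depends on
`A` alone or `B` alone being free; and so has the number of gates for `A B`, if only linear
combinations are free. -/
theorem result :
    (∀ (𝕜 : Type) [RCLike 𝕜] (n a b L d : ℕ) (Φ : (Fin n → Fin n → 𝕜) → Fin d → 𝕜),
      SolvesF 𝕜 n a b L d Φ → ((n * (d - n) : ℕ) : ℝ) ^ (omega / 3) ≤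
        2 * L * ((4 * (a * min a b) : ℕ) : ℝ) ^ (omega / 3)) ∧
    (∀ (𝕜 : Type) [RCLike 𝕜] (a b : ℕ) (ε δ τ : ℝ), 0 < ε → 1 < δ →
      (∀ N : ℕ, ∃ n : ℕ, N ≤ n ∧ ∃ (d L : ℕ) (Φ : (Fin n → Fin n → 𝕜) → Fin d → 𝕜),
        SolvesF 𝕜 n a b L d Φ ∧ ε * (n : ℝ) ^ δ ≤ d ∧ (L : ℝ) ≤ (n : ℝ) ^ τ) →
      (1 + δ) * omega / 3 ≤ τ) ∧
    (∀ a b : ℕ, 2 ≤ a → 1 ≤ b →
      (∀ (ε : ℝ), 0 < ε → ∀ d : ℕ → ℕ, (∀ᶠ n : ℕ in atTop, ε * (n : ℝ) ^ 2 ≤ d n) →
        ∀ ℓ : (n : ℕ) → (Fin n → Fin n → ℝ) →L[ℝ] (Fin (d n) → ℝ),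
          (∀ n, Function.Surjective (ℓ n)) →
          sInf {τ : ℝ | ∃ C : ℝ, ∀ n : ℕ, ∃ L : ℕ, SolvesF ℝ n a b L (d n) (ℓ n) ∧
            (L : ℝ) ≤ C * (n : ℝ) ^ τ} = omega) ∧
      sInf {τ : ℝ | ∃ C : ℝ, ∀ n : ℕ, ∃ L : ℕ, Solves ℝ n a b L ∧
        (L : ℝ) ≤ C * (n : ℝ) ^ τ} = omega) := by
  refine ⟨?_, ?_, ?_⟩
  · intro 𝕜 _ n a b L d Φ h
    obtain ⟨σ⟩ := exists_hom 𝕜
    exact lowerF σ h
  · intro 𝕜 _ a b ε δ τ hε hδ H
    obtain ⟨σ⟩ := exists_hom 𝕜
    exact exponent_lower σ hε hδ H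
  · intro a b ha hb
    exact ⟨fun ε hε d hd ℓ hℓ => exponent_linear ha hb hε d hd ℓ hℓ,
      Pool.Agent.Y538.Net.exponent ha hb⟩

end Pool.Agent.Results.MP_e72dc0_lc.SmoothGates
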